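import Pool.Agent.Lib.MP_f73e8c_lc.LP.Defs
import Pool.Agent.Shared.PolyTime

/-!
The algorithm (domain filtering, probing, greedy orientation) and its running time.
-/

set_option autoImplicit false

namespace Pool.Agent.Lib.MP_f73e8c_lc.LP

open Pool.Agent.Shared.PolyTime

/-- Allowed pairs `(index, vertex)`. -/
abbrev Dom := List (ℕ × Vtx)

def src (I : Inst) (i : ℕ) : Vtx := (I.2.2.1.getD i ((0, 0), (0, 0))).1
def tgt (I : Inst) (i : ℕ) : Vtx := (I.2.2.1.getD i ((0, 0), (0, 0))).2

def inRange (I : Inst) (i : ℕ) (v : Vtx) : Bool :=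
  decide ((src I i).1 ≤ v.1) && decide (v.1 ≤ (tgt I i).1) &&
    (v.1 != (src I i).1 || v == src I i) && (v.1 != (tgt I i).1 || v == tgt I i)

def init (I : Inst) : Dom :=
  (List.range I.2.2.1.length).flatMap fun i => (I.1.filter (inRange I i)).map fun v => (i, v)

def can (A : Dom) (i j : ℕ) : Bool :=
  A.all fun u => A.all fun w => !(u.1 == i && w.1 == j && u.2.1 == w.2.1) ||
    A.any fun u' => A.any fun w' => u'.1 == i && w'.1 == j && u'.2.1 == u.2.1 &&
      w'.2.1 == u.2.1 && decide (u'.2.2 < w'.2.2)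

def must (I : Inst) (O : List (ℕ × ℕ)) (A : Dom) (i j : ℕ) : Bool :=
  O.contains (i, j) || ((I.2.2.2.contains (i, j) || I.2.2.2.contains (j, i)) && !can A j i)

def good (I : Inst) (O : List (ℕ × ℕ)) (A : Dom) (u : ℕ × Vtx) : Bool :=
  (u.2 == tgt I u.1 || I.2.1.any fun e => e.1 == u.2 && A.contains (u.1, e.2)) &&
  (u.2 == src I u.1 || I.2.1.any fun e => e.2 == u.2 && A.contains (u.1, e.1)) &&
  A.all fun w => w.2.1 != u.2.1 ||
    ((!must I O A u.1 w.1 ||
        A.any fun z => z.1 == w.1 && z.2.1 == u.2.1 && decide (u.2.2 < z.2.2)) &&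
      (!must I O A w.1 u.1 ||
        A.any fun z => z.1 == w.1 && z.2.1 == u.2.1 && decide (z.2.2 < u.2.2)))

def step (I : Inst) (O : List (ℕ × ℕ)) (A : Dom) : Dom := A.filter (good I O A)

def prop (I : Inst) (O : List (ℕ × ℕ)) : Dom := (step I O)^[(init I).length] (init I)

def ok (I : Inst) (O : List (ℕ × ℕ)) : Bool :=
  (List.range I.2.2.1.length).all fun i => (prop I O).contains (i, src I i)

def acc (I : Inst) (O : List (ℕ × ℕ)) : Bool :=
  ok I O && I.2.2.2.all fun e => ok I (e :: O) || ok I (e.swap :: O)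

def gstep (I : Inst) (O : List (ℕ × ℕ)) (e : ℕ × ℕ) : List (ℕ × ℕ) :=
  bif acc I (e :: O) then e :: O else e.swap :: O

def orient (I : Inst) : List (ℕ × ℕ) := I.2.2.2.foldl (gstep I) []

def lo (A : Dom) (i t : ℕ) : ℕ :=
  ((A.find? fun u => u.1 == i && u.2.1 == t &&
    A.all fun w => !(w.1 == i && w.2.1 == t) || decide (u.2.2 ≤ w.2.2)).map fun u => u.2.2).getD 0

def hi (A : Dom) (i t : ℕ) : ℕ :=
  ((A.find? fun u => u.1 == i && u.2.1 == t &&
    A.all fun w => !(w.1 == i && w.2.1 == t) || decide (w.2.2 ≤ u.2.2)).map fun u => u.2.2).getD 0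

def outPath (I : Inst) (A : Dom) (i : ℕ) : List Vtx :=
  (List.range (min ((tgt I i).1 - (src I i).1 + 1) I.1.length)).map fun n =>
    ((src I i).1 + n, lo A i ((src I i).1 + n))

def alg (I : Inst) : Bool × List (List Vtx) :=
  (acc I [], (List.range I.2.2.1.length).map (outPath I (prop I (orient I))))

section

variable {α : Type} [N487b59b3 α] {I : α → Inst} {O : α → List (ℕ × ℕ)} {A : α → Dom}
  {i j t : α → ℕ}

@[fun_prop] theorem src_pt (hI : PT I) (hi : PT i) : PT (fun a => src (I a) (i a)) := by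
  unfold src; fun_prop

@[fun_prop] theorem tgt_pt (hI : PT I) (hi : PT i) : PT (fun a => tgt (I a) (i a)) := by
  unfold tgt; fun_prop

@[fun_prop] theorem inRange_pt {v : α → Vtx} (hI : PT I) (hi : PT i) (hv : PT v) :
    PT (fun a => inRange (I a) (i a) (v a)) := by
  unfold inRange; fun_prop

@[fun_prop] theorem init_pt (hI : PT I) : PT (fun a => init (I a)) := by
  unfold init; fun_prop

@[fun_prop] theorem can_pt (hA : PT A) (hi : PT i) (hj : PT j) :
    PT (fun a => can (A a) (i a) (j a)) := by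
  unfold can; fun_prop

@[fun_prop] theorem must_pt (hI : PT I) (hO : PT O) (hA : PT A) (hi : PT i) (hj : PT j) :
    PT (fun a => must (I a) (O a) (A a) (i a) (j a)) := by
  unfold must; fun_prop

@[fun_prop] theorem good_pt {u : α → ℕ × Vtx} (hI : PT I) (hO : PT O) (hA : PT A) (hu : PT u) :
    PT (fun a => good (I a) (O a) (A a) (u a)) := by
  unfold good; fun_prop

@[fun_prop] theorem step_pt (hI : PT I) (hO : PT O) (hA : PT A) :
    PT (fun a => step (I a) (O a) (A a)) := by
  unfold step; fun_prop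

@[fun_prop] theorem prop_pt (hI : PT I) (hO : PT O) : PT (fun a => prop (I a) (O a)) := by
  unfold prop
  refine PT.iterate_inv (f := fun a => step (I a) (O a)) (by fun_prop) (by fun_prop) (by fun_prop)
    (by fun_prop) (fun a s => s.Sublist (init (I a))) (fun a => List.Sublist.refl _)
    (fun a s hs => List.filter_sublist.trans hs) (B := fun a => sz (init (I a))) (by fun_prop)
    (fun a s hs => sz_sublist hs)

@[fun_prop] theorem ok_pt (hI : PT I) (hO : PT O) : PT (fun a => ok (I a) (O a)) := by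
  unfold ok; fun_prop

@[fun_prop] theorem acc_pt (hI : PT I) (hO : PT O) : PT (fun a => acc (I a) (O a)) := by
  unfold acc; fun_prop

@[fun_prop] theorem gstep_pt {e : α → ℕ × ℕ} (hI : PT I) (hO : PT O) (he : PT e) :
    PT (fun a => gstep (I a) (O a) (e a)) := by
  unfold gstep; fun_prop

@[fun_prop] theorem orient_pt (hI : PT I) : PT (fun a => orient (I a)) := by
  unfold orient
  refine PT.foldl_grow (f := fun a => gstep (I a)) (by fun_prop) (by fun_prop) (by fun_prop)
    (g := fun a => 4 * sz (I a).2.2.2 + 4) (by fun_prop) ?_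
  intro a s x hx
  have h1 := sz_mem hx
  have h2 := sz_prod x
  have h3 := sz_prod x.swap
  unfold gstep
  cases acc (I a) (x :: s)
  · simp only [cond_false, sz_cons]
    simp only [Prod.fst_swap, Prod.snd_swap] at h3
    omega
  · simp only [cond_true, sz_cons]
    omega

@[fun_prop] theorem lo_pt (hA : PT A) (hi : PT i) (ht : PT t) :
    PT (fun a => lo (A a) (i a) (t a)) := by
  unfold lo; fun_prop

@[fun_prop] theorem outPath_pt (hI : PT I) (hA : PT A) (hi : PT i) :
    PT (fun a => outPath (I a) (A a) (i a)) := by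
  unfold outPath; fun_prop

theorem alg_pt : PT alg := by
  unfold alg; fun_prop

end

end Pool.Agent.Lib.MP_f73e8c_lc.LP
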