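import Pool.Agent.Lib.MP_f73e8c_lc.LP.Fix

/-!
From position functions to vertex lists and back.
-/

set_option autoImplicit false

namespace Pool.Agent.Lib.MP_f73e8c_lc.LP

/-- The vertex list of a position function. -/
def toList (I : Inst) (i : ℕ) (x : ℕ → ℕ) : List Vtx :=
  (List.range ((tgt I i).1 - (src I i).1 + 1)).map fun n => ((src I i).1 + n, x ((src I i).1 + n))

section

variable {I : Inst}

theorem mem_toList {i : ℕ} {x : ℕ → ℕ} (h : LPath I i x) {v : Vtx} (hv : v ∈ toList I i x) :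
    Rng I i v.1 ∧ v.2 = x v.1 := by
  obtain ⟨n, hn, rfl⟩ := List.mem_map.1 hv
  have := List.mem_range.1 hn
  have := h.1
  exact ⟨⟨by simp, by simp only; omega⟩, rfl⟩

theorem toList_nodup (i : ℕ) (x : ℕ → ℕ) : (toList I i x).Nodup :=
  List.nodup_range.map fun a b h => by
    have := congrArg Prod.fst h
    simpa using this

theorem toList_dipath {i : ℕ} {x : ℕ → ℕ} (h : LPath I i x) :
    IsDipath I.2.1 (src I i) (tgt I i) (toList I i x) := by
  obtain ⟨h1, h2, h3, h4⟩ := h
  refine ⟨?_, ?_, ?_, toList_nodup i x⟩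
  · simp [toList, List.range_succ_eq_map, h2]
  · have e : (src I i).1 + ((tgt I i).1 - (src I i).1) = (tgt I i).1 := by omega
    simp [toList, List.range_succ, e, h3]
  · unfold toList
    rw [List.isChain_map, List.isChain_range_succ]
    intro m hm
    exact h4 _ (by omega) (by omega)

theorem len_le (hW : WellFormed I) {i : ℕ} (hi : i < I.2.2.1.length) {x : ℕ → ℕ}
    (h : LPath I i x) : (tgt I i).1 - (src I i).1 + 1 ≤ I.1.length := by
  have h1 : toList I i x ⊆ I.1 := by
    rintro ⟨t, y⟩ hv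
    obtain ⟨ht, e⟩ := mem_toList h hv
    simp only at ht e
    subst e
    rcases ht.1.eq_or_lt with e | e
    · rw [← e, h.2.1]; exact src_mem hW hi
    · obtain ⟨s, rfl⟩ : ∃ s, t = s + 1 := ⟨t - 1, by omega⟩
      exact (hW.1 _ (h.2.2.2 s (by omega) ht.2)).2
  have := (List.subperm_of_subset (toList_nodup i x) h1).length_le
  simpa [toList] using this

theorem chain_fun (hL : LevelPlanar I) : ∀ (p : List Vtx) (r s : Vtx), p.head? = some r →
    p.getLast? = some s → p.IsChain (fun u v => (u, v) ∈ I.2.1) →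
    ∃ x : ℕ → ℕ, r.1 ≤ s.1 ∧ x r.1 = r.2 ∧ x s.1 = s.2 ∧
      (∀ t, r.1 ≤ t → t < s.1 → ((t, x t), (t + 1, x (t + 1))) ∈ I.2.1) ∧
      ∀ t, r.1 ≤ t → t ≤ s.1 → (t, x t) ∈ p := by
  intro p
  induction p with
  | nil => intro r s h; simp at h
  | cons a p ih =>
    intro r s h1 h2 h3
    obtain rfl : a = r := by simpa using h1
    cases p with
    | nil =>
      obtain rfl : a = s := by simpa using h2
      refine ⟨fun _ => a.2, le_rfl, rfl, rfl, fun t a1 a2 => by omega, fun t a1 a2 => ?_⟩
      obtain rfl : t = a.1 := le_antisymm a2 a1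
      simp
    | cons b p =>
      rw [List.isChain_cons_cons] at h3
      rw [List.getLast?_cons_cons] at h2
      obtain ⟨x, g1, g2, g3, g4, g5⟩ := ih b s rfl h2 h3.2
      have hb : b.1 = a.1 + 1 := hL.1 _ h3.1
      refine ⟨fun t => if t = a.1 then a.2 else x t, by omega, by simp, ?_, fun t a1 a2 => ?_,
        fun t a1 a2 => ?_⟩
      · simp only
        rw [if_neg (by omega), g3]
      · simp only
        rw [if_neg (show ¬ t + 1 = a.1 by omega)]
        by_cases ht : t = a.1
        · rw [if_pos ht, ht, ← hb, g2]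
          exact h3.1
        · rw [if_neg ht]
          exact g4 t (by omega) a2
      · simp only
        by_cases ht : t = a.1
        · rw [if_pos ht, ht]
          exact List.mem_cons_self
        · rw [if_neg ht]
          exact List.mem_cons_of_mem _ (g5 t (by omega) a2)

theorem left_of_base (hL : LevelPlanar I) {i j : ℕ} {x y : ℕ → ℕ} (hx : LPath I i x)
    (hy : LPath I j y) (hne : ∀ t, Rng I i t → Rng I j t → x t ≠ y t)
    (h0 : x (max (src I i).1 (src I j).1) < y (max (src I i).1 (src I j).1)) : Left I i x j y := by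
  intro t h1 h2
  have h3 : max (src I i).1 (src I j).1 ≤ t := max_le h1.1 h2.1
  induction t, h3 using Nat.le_induction with
  | base => exact h0
  | succ t h3 ih =>
    have a1 : (src I i).1 ≤ t := le_trans (le_max_left _ _) h3
    have a2 : (src I j).1 ≤ t := le_trans (le_max_right _ _) h3
    have a3 := ih ⟨a1, by have := h1.2; omega⟩ ⟨a2, by have := h2.2; omega⟩
    have a4 : x (t + 1) ≤ y (t + 1) := hL.2 _ (hx.2.2.2 t a1 h1.2) _ (hy.2.2.2 t a2 h2.2) rfl a3
    exact lt_of_le_of_ne a4 (hne _ h1 h2)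

theorem left_or (hL : LevelPlanar I) {i j : ℕ} {x y : ℕ → ℕ} (hx : LPath I i x)
    (hy : LPath I j y) (hne : ∀ t, Rng I i t → Rng I j t → x t ≠ y t) :
    Left I i x j y ∨ Left I j y i x := by
  rcases lt_trichotomy (x (max (src I i).1 (src I j).1)) (y (max (src I i).1 (src I j).1)) with
    h | h | h
  · exact Or.inl (left_of_base hL hx hy hne h)
  · left
    intro t h1 h2
    have h3 : max (src I i).1 (src I j).1 ≤ t := max_le h1.1 h2.1
    exact absurd h (hne _ ⟨le_max_left _ _, h3.trans h1.2⟩ ⟨le_max_right _ _, h3.trans h2.2⟩)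
  · right
    rw [max_comm] at h
    exact left_of_base hL hy hx (fun t a b => (hne t b a).symm) h

theorem src_get (i : Fin I.2.2.1.length) : src I i = (I.2.2.1.get i).1 := by
  unfold src
  rw [List.getD_eq_getElem _ _ i.2]
  rfl

theorem tgt_get (i : Fin I.2.2.1.length) : tgt I i = (I.2.2.1.get i).2 := by
  unfold tgt
  rw [List.getD_eq_getElem _ _ i.2]
  rfl

theorem sol_of_isSolution (hW : WellFormed I) (hL : LevelPlanar I) {P : List (List Vtx)}
    (hP : IsSolution I P) : ∃ Q, Sol I [] Q := by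
  have h : ∀ i, ∃ x : ℕ → ℕ, i < I.2.2.1.length →
      LPath I i x ∧ ∀ t, Rng I i t → (t, x t) ∈ P.getD i [] := by
    intro i
    by_cases hi : i < I.2.2.1.length
    · obtain ⟨h1, h2, h3, _⟩ := hP.2.1 ⟨i, hi⟩
      rw [← src_get] at h1
      rw [← tgt_get] at h2
      obtain ⟨x, g1, g2, g3, g4, g5⟩ := chain_fun hL _ _ _ h1 h2 h3
      exact ⟨x, fun _ => ⟨⟨g1, g2, g3, g4⟩, fun t ht => g5 t ht.1 ht.2⟩⟩
    · exact ⟨id, fun h => absurd h hi⟩
  choose Q hQ using h
  refine ⟨Q, fun i hi => (hQ i hi).1, fun e he => ?_, by simp⟩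
  obtain ⟨hne, h1, h2⟩ := hW.2.2 e he
  refine left_or hL (hQ _ h1).1 (hQ _ h2).1 fun t a b hab => ?_
  have hadj : (conflictGraph I).Adj ⟨e.1, h1⟩ ⟨e.2, h2⟩ :=
    (SimpleGraph.fromRel_adj _ _ _).2 ⟨fun h => hne (congrArg Fin.val h), Or.inl he⟩
  exact hP.2.2 _ _ hadj ((hQ _ h1).2 t a) (hab ▸ (hQ _ h2).2 t b)

theorem isSolution_alg (hW : WellFormed I) (hL : LevelPlanar I)
    (hG : Pseudoforest (conflictGraph I)) (h : acc I [] = true) : IsSolution I (alg I).2 := by
  obtain ⟨h1, h2, _⟩ := lo_sol hW hL hG h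
  have e : ∀ i : Fin I.2.2.1.length,
      (alg I).2.getD i [] = toList I i (lo (prop I (orient I)) i) := by
    intro i
    have : (alg I).2.getD i [] = outPath I (prop I (orient I)) i := by
      simp [alg, List.getD_eq_getElem?_getD, i.2]
    rw [this, outPath, min_eq_left (len_le hW i.2 (h1 i i.2)), toList]
  refine ⟨by simp [alg], fun i => ?_, fun i j hij => ?_⟩
  · rw [e, ← src_get, ← tgt_get]
    exact toList_dipath (h1 i i.2)
  · rw [e, e]
    intro v a b
    obtain ⟨a1, a2⟩ := mem_toList (h1 i i.2) a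
    obtain ⟨b1, b2⟩ := mem_toList (h1 j j.2) b
    have hl : Left I i (lo (prop I (orient I)) i) j (lo (prop I (orient I)) j) ∨
        Left I j (lo (prop I (orient I)) j) i (lo (prop I (orient I)) i) := by
      rcases ((SimpleGraph.fromRel_adj _ _ _).1 hij).2 with h3 | h3
      · exact h2 _ h3
      · exact (h2 _ h3).symm
    rcases hl with h3 | h3
    · have := h3 _ a1 b1
      omega
    · have := h3 _ b1 a1
      omega

end

end Pool.Agent.Lib.MP_f73e8c_lc.LP
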