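import Pool.Agent.Lib.MP_f73e8c_lc.LP.Defs

/-!
Pseudoforests: graphs of maximum degree two, forests, and a selection lemma.
-/

set_option autoImplicit false

namespace Pool.Agent.Lib.MP_f73e8c_lc.LP

open Function

theorem pseudo_of_acyclic {α : Type} (G : SimpleGraph α) (h : G.IsAcyclic) : Pseudoforest G := by
  classical
  let ρ : α → α := fun v => (G.connectedComponentMk v).out
  have hr : ∀ v, G.Reachable v (ρ v) := fun v =>
    SimpleGraph.ConnectedComponent.exact (G.connectedComponentMk v).out_eq.symm
  have hp : ∀ v, ∃ p : G.Walk v (ρ v), p.IsPath := fun v => (hr v).exists_isPath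
  choose p hp using hp
  have key : ∀ i j, G.Adj i j → i ∉ (p j).support → (p i).getVert 1 = j := by
    intro i j hij hni
    have e : ρ j = ρ i := by
      have : G.connectedComponentMk j = G.connectedComponentMk i :=
        SimpleGraph.ConnectedComponent.sound hij.symm.reachable
      simp only [ρ, this]
    have hq : (SimpleGraph.Walk.cons hij ((p j).copy rfl e)).IsPath := by
      rw [SimpleGraph.Walk.cons_isPath_iff]
      exact ⟨by simpa using hp j, by simpa using hni⟩
    have := (h.subsingleton_path _ _).elim ⟨p i, hp i⟩ ⟨_, hq⟩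
    have e2 : p i = SimpleGraph.Walk.cons hij ((p j).copy rfl e) := congrArg Subtype.val this
    rw [e2]
    simp
  refine ⟨fun v => (p v).getVert 1, fun i j hij => ?_⟩
  by_cases hi : i ∈ (p j).support
  · right
    refine key j i hij.symm ?_
    have e : ρ j = ρ i := by
      have : G.connectedComponentMk j = G.connectedComponentMk i :=
        SimpleGraph.ConnectedComponent.sound hij.symm.reachable
      simp only [ρ, this]
    have hq : (((p j).dropUntil i hi).copy rfl e).IsPath := by
      simpa using (hp j).dropUntil hi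
    have := (h.subsingleton_path _ _).elim ⟨p i, hp i⟩ ⟨_, hq⟩
    have e2 : p i = ((p j).dropUntil i hi).copy rfl e := congrArg Subtype.val this
    rw [e2, SimpleGraph.Walk.support_copy]
    intro hj
    have hn := (hp j).support_nodup
    rw [← (p j).take_spec hi, SimpleGraph.Walk.support_append] at hn
    have h1 : j ∈ ((p j).takeUntil i hi).support := SimpleGraph.Walk.start_mem_support _
    have h2 : j ∈ ((p j).dropUntil i hi).support.tail := by
      rw [← SimpleGraph.Walk.cons_tail_support, List.mem_cons] at hj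
      exact hj.resolve_left hij.ne.symm
    exact List.disjoint_of_nodup_append hn h1 h2
  · exact Or.inl (key i j hij hi)

theorem pseudo_of_degree {α : Type} [Fintype α] (G : SimpleGraph α) [DecidableRel G.Adj]
    (h : G.maxDegree ≤ 2) : Pseudoforest G := by
  classical
  let t : G.edgeSet → Finset α := fun e => Finset.univ.filter fun v => v ∈ (e : Sym2 α)
  have hall : ∀ s : Finset G.edgeSet, s.card ≤ (s.biUnion t).card := by
    intro s
    have h1 : s.card * 2 ≤ (s.biUnion t).card * 2 := by
      refine Finset.card_mul_le_card_mul (fun (e : G.edgeSet) (v : α) => v ∈ (e : Sym2 α)) ?_ ?_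
      · rintro ⟨e, he⟩ hs
        induction e using Sym2.ind with
        | _ a b =>
          have hab : G.Adj a b := he
          have : ({a, b} : Finset α) ⊆ (s.biUnion t).bipartiteAbove
              (fun (e : G.edgeSet) v => v ∈ (e : Sym2 α)) ⟨s(a, b), he⟩ := by
            intro v hv
            have hv' : v ∈ s(a, b) := by simpa using hv
            rw [Finset.mem_bipartiteAbove]
            exact ⟨Finset.mem_biUnion.2 ⟨_, hs, by simpa [t] using hv'⟩, hv'⟩
          have h2 := Finset.card_le_card this
          rwa [Finset.card_pair hab.ne] at h2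
      · intro v _
        refine le_trans ?_ ((G.degree_le_maxDegree v).trans h)
        rw [← SimpleGraph.card_incidenceFinset_eq_degree]
        refine Finset.card_le_card_of_injOn (fun e => (e : Sym2 α)) ?_ ?_
        · intro e he
          have := (Finset.mem_bipartiteBelow _).1 (Finset.mem_coe.1 he)
          simp only [Finset.mem_coe, SimpleGraph.mem_incidenceFinset]
          exact ⟨e.2, this.2⟩
        · intro a _ b _ hab
          exact Subtype.ext hab
    omega
  obtain ⟨g, hg, hm⟩ := (Finset.all_card_le_biUnion_card_iff_exists_injective t).1 hall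
  have hf : ∀ v, ∃ w, ∀ e : G.edgeSet, g e = v → (e : Sym2 α) = s(v, w) := by
    intro v
    by_cases hv : ∃ e, g e = v
    · obtain ⟨e, he⟩ := hv
      have hve : v ∈ (e : Sym2 α) := by simpa [t, he] using hm e
      refine ⟨Sym2.Mem.other hve, fun e' he' => ?_⟩
      rw [hg (he'.trans he.symm)]
      exact (Sym2.other_spec hve).symm
    · exact ⟨v, fun e he => absurd ⟨e, he⟩ hv⟩
  choose f hf using hf
  refine ⟨f, fun i j hij => ?_⟩
  have h1 : g ⟨s(i, j), hij⟩ ∈ s(i, j) := by simpa [t] using hm ⟨s(i, j), hij⟩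
  rcases Sym2.mem_iff.1 h1 with h2 | h2
  · left
    have := hf i _ h2
    simp only [Sym2.eq_iff] at this
    rcases this with h3 | h3
    · exact h3.2.symm
    · exact absurd h3.2 hij.ne.symm
  · right
    have := hf j _ h2
    simp only [Sym2.eq_iff] at this
    rcases this with h3 | h3
    · exact absurd h3.1 hij.ne
    · exact h3.1.symm

/-- Selection along a functional graph: one state per component, chosen at a vertex of its cycle. -/
theorem select {ι X : Type} [Finite ι] (f : ι → ι) (D : ι → ι → X → Prop) (R : ι → X → X → Prop)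
    (hroot : ∀ ρ, ∃ x, D ρ ρ x ∧ ∀ y, D ρ (f ρ) y → R ρ x y)
    (hsupp : ∀ ρ v y, D ρ (f v) y → ∃ x, D ρ v x ∧ R v x y) :
    ∃ P : ι → X, ∀ v, (∃ ρ, D ρ v (P v)) ∧ R v (P v) (P (f v)) := by
  classical
  let C : ι → Set ι := fun v => {w | ∀ N, ∃ n, N ≤ n ∧ f^[n] v = w}
  have hC : ∀ v, (C v).Nonempty := by
    intro v
    obtain ⟨w, hw⟩ := Finite.exists_infinite_fiber (fun n : ℕ => f^[n] v)
    refine ⟨w, fun N => ?_⟩
    obtain ⟨n, hn, hN⟩ := (Set.infinite_coe_iff.1 hw).exists_gt N
    exact ⟨n, hN.le, hn⟩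
  have hCf : ∀ v, C (f v) = C v := by
    intro v
    ext w
    constructor
    · intro hw N
      obtain ⟨n, hn, e⟩ := hw N
      exact ⟨n + 1, by omega, e⟩
    · intro hw N
      obtain ⟨n, hn, e⟩ := hw (N + 1)
      obtain ⟨m, rfl⟩ : ∃ m, n = m + 1 := ⟨n - 1, by omega⟩
      exact ⟨m, by omega, e⟩
  have hρ : ∃ ρ : ι → ι, (∀ v, ρ (f v) = ρ v) ∧ ∀ v, ∃ n, f^[n] v = ρ v := by
    refine ⟨fun v => (hC v).some, fun v => ?_, fun v => ?_⟩
    · simp only [hCf]
    · obtain ⟨n, _, e⟩ := (hC v).some_mem 0
      exact ⟨n, e⟩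
  obtain ⟨ρ, hρf, hρn⟩ := hρ
  choose x0 hx0 using hroot
  have hs : ∀ ρ v y, ∃ x, D ρ (f v) y → D ρ v x ∧ R v x y := by
    intro ρ v y
    by_cases h : D ρ (f v) y
    · obtain ⟨x, hx⟩ := hsupp ρ v y h
      exact ⟨x, fun _ => hx⟩
    · exact ⟨y, fun h' => absurd h' h⟩
  choose s hs using hs
  let g : ℕ → ι → X := fun n => Nat.rec x0 (fun _ g v => s (ρ v) v (g (f v))) n
  let d : ι → ℕ := fun v => Nat.find (hρn v)
  have hd0 : ∀ v, d v = 0 → ρ v = v := by
    intro v hv
    have := Nat.find_spec (hρn v)
    simp only [d] at hv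
    rw [hv] at this
    exact this.symm
  have hd1 : ∀ v n, d v = n + 1 → d (f v) = n := by
    intro v n hv
    have h1 := Nat.find_spec (hρn v)
    simp only [d] at hv
    rw [hv] at h1
    refine (Nat.find_eq_iff _).2 ⟨by rw [hρf]; exact h1, fun m hm h2 => ?_⟩
    have := Nat.find_min (hρn v) (m := m + 1) (by omega)
    rw [hρf] at h2
    exact this h2
  have hD : ∀ n v, d v = n → D (ρ v) v (g n v) := by
    intro n
    induction n with
    | zero =>
      intro v hv
      rw [hd0 v hv]
      exact (hx0 v).1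
    | succ n ih =>
      intro v hv
      have := ih (f v) (hd1 v n hv)
      rw [hρf] at this
      exact (hs _ _ _ this).1
  refine ⟨fun v => g (d v) v, fun v => ⟨⟨_, hD _ v rfl⟩, ?_⟩⟩
  have h1 := hD _ (f v) rfl
  rw [hρf] at h1
  show R v (g (d v) v) (g (d (f v)) (f v))
  rcases hv : d v with _ | n
  · rw [hd0 v hv] at h1
    exact (hx0 v).2 _ h1
  · rw [hd1 v n hv] at h1 ⊢
    exact (hs _ _ _ h1).2

end Pool.Agent.Lib.MP_f73e8c_lc.LP
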