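import Pool.Agent.Lib.MP_f73e8c_lc.LP.Alg
import Pool.Agent.Lib.MP_f73e8c_lc.LP.Graph

/-!
Correctness of domain filtering on level-planar digraphs.
-/

set_option autoImplicit false

namespace Pool.Agent.Lib.MP_f73e8c_lc.LP

open Function

/-- `x` gives the position at each level of a path from `r_i` to `s_i`. -/
def LPath (I : Inst) (i : ℕ) (x : ℕ → ℕ) : Prop :=
  (src I i).1 ≤ (tgt I i).1 ∧ x (src I i).1 = (src I i).2 ∧ x (tgt I i).1 = (tgt I i).2 ∧
    ∀ t, (src I i).1 ≤ t → t < (tgt I i).1 → ((t, x t), (t + 1, x (t + 1))) ∈ I.2.1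

def Rng (I : Inst) (i t : ℕ) : Prop := (src I i).1 ≤ t ∧ t ≤ (tgt I i).1

def Left (I : Inst) (i : ℕ) (x : ℕ → ℕ) (j : ℕ) (y : ℕ → ℕ) : Prop :=
  ∀ t, Rng I i t → Rng I j t → x t < y t

def Sol (I : Inst) (O : List (ℕ × ℕ)) (P : ℕ → ℕ → ℕ) : Prop :=
  (∀ i < I.2.2.1.length, LPath I i (P i)) ∧
    (∀ f ∈ I.2.2.2, Left I f.1 (P f.1) f.2 (P f.2) ∨ Left I f.2 (P f.2) f.1 (P f.1)) ∧
    ∀ f ∈ O, Left I f.1 (P f.1) f.2 (P f.2)

theorem mem_init {I : Inst} {i t x : ℕ} : (i, t, x) ∈ init I ↔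
    i < I.2.2.1.length ∧ (t, x) ∈ I.1 ∧ Rng I i t ∧ (t = (src I i).1 → x = (src I i).2) ∧
      (t = (tgt I i).1 → x = (tgt I i).2) := by
  simp only [init, inRange, Rng, List.mem_flatMap, List.mem_range, List.mem_map, List.mem_filter,
    Bool.and_eq_true, decide_eq_true_eq, Bool.or_eq_true, bne_iff_ne, beq_iff_eq, Prod.mk.injEq]
  constructor
  · rintro ⟨i', h1, v, ⟨h2, ⟨⟨h3, h4⟩, h5⟩, h6⟩, rfl, rfl⟩
    refine ⟨h1, h2, ⟨h3, h4⟩, fun h => ?_, fun h => ?_⟩
    · exact congrArg Prod.snd (h5.resolve_left (not_not.2 h))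
    · exact congrArg Prod.snd (h6.resolve_left (not_not.2 h))
  · rintro ⟨h1, h2, ⟨h3, h4⟩, h5, h6⟩
    refine ⟨i, h1, (t, x), ⟨h2, ⟨⟨h3, h4⟩, ?_⟩, ?_⟩, rfl, rfl⟩
    · by_cases h : t = (src I i).1
      · exact Or.inr (Prod.ext h (h5 h))
      · exact Or.inl h
    · by_cases h : t = (tgt I i).1
      · exact Or.inr (Prod.ext h (h6 h))
      · exact Or.inl h

theorem can_iff {A : Dom} {i j : ℕ} : can A i j = true ↔
    ∀ t x y, (i, t, x) ∈ A → (j, t, y) ∈ A → ∃ x' y', (i, t, x') ∈ A ∧ (j, t, y') ∈ A ∧ x' < y' := by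
  simp only [can, List.all_eq_true, List.any_eq_true, Bool.or_eq_true, Bool.not_eq_true',
    Bool.and_eq_true, beq_iff_eq, decide_eq_true_eq]
  constructor
  · intro h t x y hx hy
    rcases h _ hx _ hy with g | ⟨⟨i', t', x'⟩, hu, ⟨j', t'', y'⟩, hw, g⟩
    · simp at g
    · simp only at g
      obtain ⟨⟨⟨⟨g1, g2⟩, g3⟩, g4⟩, g5⟩ := g
      rw [g1, g3] at hu
      rw [g2, g4] at hw
      exact ⟨x', y', hu, hw, g5⟩
  · rintro h ⟨i', t, x⟩ hu ⟨j', t', y⟩ hw
    by_cases hc : i' = i ∧ j' = j ∧ t = t'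
    · obtain ⟨rfl, rfl, rfl⟩ := hc
      obtain ⟨x', y', h1, h2, h3⟩ := h t x y hu hw
      exact Or.inr ⟨_, h1, _, h2, ⟨⟨⟨rfl, rfl⟩, rfl⟩, rfl⟩, h3⟩
    · left
      rw [← Bool.not_eq_true]
      simp only [Bool.and_eq_true, beq_iff_eq]
      tauto

theorem must_iff {I : Inst} {O : List (ℕ × ℕ)} {A : Dom} {i j : ℕ} : must I O A i j = true ↔
    (i, j) ∈ O ∨ (((i, j) ∈ I.2.2.2 ∨ (j, i) ∈ I.2.2.2) ∧ ¬ can A j i = true) := by
  simp [must]

theorem good_iff {I : Inst} {O : List (ℕ × ℕ)} {A : Dom} {i t x : ℕ} :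
    good I O A (i, t, x) = true ↔
      ((t, x) = tgt I i ∨ ∃ w, ((t, x), w) ∈ I.2.1 ∧ (i, w) ∈ A) ∧
      ((t, x) = src I i ∨ ∃ w, (w, (t, x)) ∈ I.2.1 ∧ (i, w) ∈ A) ∧
      ∀ j y, (j, t, y) ∈ A → (must I O A i j = true → ∃ z, (j, t, z) ∈ A ∧ x < z) ∧
        (must I O A j i = true → ∃ z, (j, t, z) ∈ A ∧ z < x) := by
  simp only [good, List.all_eq_true, List.any_eq_true, Bool.or_eq_true, Bool.not_eq_true',
    Bool.and_eq_true, beq_iff_eq, decide_eq_true_eq, bne_iff_ne, List.contains_iff_mem, and_assoc]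
  refine and_congr (or_congr Iff.rfl ?_) (and_congr (or_congr Iff.rfl ?_) ?_)
  · constructor
    · rintro ⟨⟨u, w⟩, h1, h2, h3⟩
      simp only at h2 h3
      subst h2
      exact ⟨w, h1, h3⟩
    · rintro ⟨w, h1, h2⟩
      exact ⟨_, h1, rfl, h2⟩
  · constructor
    · rintro ⟨⟨w, u⟩, h1, h2, h3⟩
      simp only at h2 h3
      subst h2
      exact ⟨w, h1, h3⟩
    · rintro ⟨w, h1, h2⟩
      exact ⟨_, h1, rfl, h2⟩
  · constructor
    · intro h j y hy
      rcases h _ hy with h | ⟨h1, h2⟩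
      · exact absurd rfl h
      · constructor
        · intro hm
          rcases h1 with h1 | ⟨⟨j', t', z⟩, hz, h3, h4, h5⟩
          · simp only at h1
            rw [hm] at h1
            exact absurd h1 (by simp)
          · simp only at h3 h4 h5
            subst h3 h4
            exact ⟨z, hz, h5⟩
        · intro hm
          rcases h2 with h2 | ⟨⟨j', t', z⟩, hz, h3, h4, h5⟩
          · simp only at h2
            rw [hm] at h2
            exact absurd h2 (by simp)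
          · simp only at h3 h4 h5
            subst h3 h4
            exact ⟨z, hz, h5⟩
    · rintro h ⟨j, t', y⟩ hy
      by_cases ht : t' = t
      · subst ht
        obtain ⟨h1, h2⟩ := h j y hy
        refine Or.inr ⟨?_, ?_⟩
        · by_cases hm : must I O A i j = true
          · obtain ⟨z, hz, h3⟩ := h1 hm
            exact Or.inr ⟨_, hz, rfl, rfl, h3⟩
          · exact Or.inl (by simpa using hm)
        · by_cases hm : must I O A j i = true
          · obtain ⟨z, hz, h3⟩ := h2 hm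
            exact Or.inr ⟨_, hz, rfl, rfl, h3⟩
          · exact Or.inl (by simpa using hm)
      · exact Or.inl ht

theorem lo_spec {A : Dom} {i t : ℕ} (h : ∃ x, (i, t, x) ∈ A) :
    (i, t, lo A i t) ∈ A ∧ ∀ y, (i, t, y) ∈ A → lo A i t ≤ y := by
  classical
  unfold lo
  generalize hp : (fun u : ℕ × Vtx => u.1 == i && u.2.1 == t &&
    A.all fun w => !(w.1 == i && w.2.1 == t) || decide (u.2.2 ≤ w.2.2)) = p
  have hpi : ∀ u, p u = true ↔ u.1 = i ∧ u.2.1 = t ∧ ∀ y, (i, t, y) ∈ A → u.2.2 ≤ y := by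
    intro u
    subst hp
    simp only [List.all_eq_true, Bool.or_eq_true, Bool.not_eq_true', Bool.and_eq_true, beq_iff_eq,
      decide_eq_true_eq, and_assoc]
    refine and_congr Iff.rfl (and_congr Iff.rfl ⟨fun h y hy => ?_, ?_⟩)
    · simpa using h _ hy
    · rintro h ⟨j, s, y⟩ hy
      by_cases hc : j = i ∧ s = t
      · obtain ⟨rfl, rfl⟩ := hc
        exact Or.inr (h y hy)
      · left
        rw [← Bool.not_eq_true]
        simpa using hc
  cases hf : A.find? p with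
  | none =>
    exfalso
    rw [List.find?_eq_none] at hf
    exact hf _ (Nat.find_spec h) ((hpi _).2 ⟨rfl, rfl, fun y hy => Nat.find_min' h hy⟩)
  | some u =>
    obtain ⟨h1, h2, h3⟩ := (hpi u).1 (List.find?_some hf)
    have h4 := List.mem_of_find?_eq_some hf
    obtain ⟨j, s, x⟩ := u
    simp only at h1 h2
    subst h1 h2
    exact ⟨h4, h3⟩

theorem hi_spec {A : Dom} {i t : ℕ} (h : ∃ x, (i, t, x) ∈ A) :
    (i, t, hi A i t) ∈ A ∧ ∀ y, (i, t, y) ∈ A → y ≤ hi A i t := by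
  classical
  unfold hi
  generalize hp : (fun u : ℕ × Vtx => u.1 == i && u.2.1 == t &&
    A.all fun w => !(w.1 == i && w.2.1 == t) || decide (w.2.2 ≤ u.2.2)) = p
  have hpi : ∀ u, p u = true ↔ u.1 = i ∧ u.2.1 = t ∧ ∀ y, (i, t, y) ∈ A → y ≤ u.2.2 := by
    intro u
    subst hp
    simp only [List.all_eq_true, Bool.or_eq_true, Bool.not_eq_true', Bool.and_eq_true, beq_iff_eq,
      decide_eq_true_eq, and_assoc]
    refine and_congr Iff.rfl (and_congr Iff.rfl ⟨fun h y hy => ?_, ?_⟩)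
    · simpa using h _ hy
    · rintro h ⟨j, s, y⟩ hy
      by_cases hc : j = i ∧ s = t
      · obtain ⟨rfl, rfl⟩ := hc
        exact Or.inr (h y hy)
      · left
        rw [← Bool.not_eq_true]
        simpa using hc
  cases hf : A.find? p with
  | none =>
    exfalso
    rw [List.find?_eq_none] at hf
    have hfin : {x | (i, t, x) ∈ A}.Finite :=
      (A.map fun u => u.2.2).finite_toSet.subset fun x hx => List.mem_map.2 ⟨_, hx, rfl⟩
    obtain ⟨m, hm, hmax⟩ := hfin.exists_maximal h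
    exact hf _ hm ((hpi _).2 ⟨rfl, rfl, fun y hy => by
      by_contra hlt
      exact hlt (hmax hy (le_of_lt (not_le.1 hlt)))⟩)
  | some u =>
    obtain ⟨h1, h2, h3⟩ := (hpi u).1 (List.find?_some hf)
    have h4 := List.mem_of_find?_eq_some hf
    obtain ⟨j, s, x⟩ := u
    simp only at h1 h2
    subst h1 h2
    exact ⟨h4, h3⟩

theorem iter_sublist (I : Inst) (O : List (ℕ × ℕ)) (n : ℕ) :
    ((step I O)^[n] (init I)).Sublist (init I) := by
  induction n with
  | zero => exact List.Sublist.refl _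
  | succ n ih => rw [iterate_succ_apply']; exact List.filter_sublist.trans ih

theorem prop_fixed (I : Inst) (O : List (ℕ × ℕ)) : step I O (prop I O) = prop I O := by
  have : ∀ n, step I O ((step I O)^[n] (init I)) = (step I O)^[n] (init I) ∨
      ((step I O)^[n] (init I)).length + n ≤ (init I).length := by
    intro n
    induction n with
    | zero => right; simp
    | succ n ih =>
      rw [iterate_succ_apply']
      by_cases h : step I O ((step I O)^[n] (init I)) = (step I O)^[n] (init I)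
      · left; rw [h, h]
      · right
        have h1 := ih.resolve_left h
        have h2 : (step I O ((step I O)^[n] (init I))).Sublist ((step I O)^[n] (init I)) :=
          List.filter_sublist
        have h3 := h2.length_le
        have h4 : (step I O ((step I O)^[n] (init I))).length ≠
          ((step I O)^[n] (init I)).length := fun e => h (h2.eq_of_length e)
        omega
  rcases this (init I).length with h | h
  · exact h
  · have : prop I O = [] := List.eq_nil_of_length_eq_zero (by unfold prop; omega)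
    rw [this]; rfl

theorem src_mem {I : Inst} (hW : WellFormed I) {i : ℕ} (hi : i < I.2.2.1.length) :
    src I i ∈ I.1 := by
  unfold src
  rw [List.getD_eq_getElem _ _ hi]
  exact (hW.2.1 _ (List.getElem_mem hi)).1

/-- Filtering never removes a vertex of a solution. -/
theorem sound {I : Inst} (hW : WellFormed I) {O : List (ℕ × ℕ)} {P : ℕ → ℕ → ℕ} (hP : Sol I O P)
    (n : ℕ) : ∀ i < I.2.2.1.length, ∀ t, Rng I i t → (i, t, P i t) ∈ (step I O)^[n] (init I) := by
  induction n with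
  | zero =>
    intro i hi t ht
    obtain ⟨h1, h2, h3, h4⟩ := hP.1 i hi
    refine mem_init.2 ⟨hi, ?_, ht, fun e => e ▸ h2, fun e => e ▸ h3⟩
    rcases ht.1.eq_or_lt with e | e
    · rw [← e, h2]; exact src_mem hW hi
    · obtain ⟨s, rfl⟩ : ∃ s, t = s + 1 := ⟨t - 1, by omega⟩
      exact (hW.1 _ (h4 s (by omega) ht.2)).2
  | succ n ih =>
    intro i hi t ht
    rw [iterate_succ_apply']
    generalize hA : (step I O)^[n] (init I) = A at ih
    have hsub : ∀ u ∈ A, u ∈ init I := fun u hu => (iter_sublist I O n).subset (hA ▸ hu)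
    have hcan : ∀ i j, Left I i (P i) j (P j) → can A i j = true := by
      intro i j h
      rw [can_iff]
      intro t x y hx hy
      have h1 := mem_init.1 (hsub _ hx)
      have h2 := mem_init.1 (hsub _ hy)
      exact ⟨_, _, ih i h1.1 t h1.2.2.1, ih j h2.1 t h2.2.2.1, h t h1.2.2.1 h2.2.2.1⟩
    have hmust : ∀ i j, must I O A i j = true → Left I i (P i) j (P j) := by
      intro i j h
      rcases must_iff.1 h with h | ⟨h | h, h'⟩
      · exact hP.2.2 _ h
      · exact (hP.2.1 _ h).resolve_right fun h2 => h' (hcan _ _ h2)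
      · exact (hP.2.1 _ h).resolve_left fun h2 => h' (hcan _ _ h2)
    obtain ⟨h1, h2, h3, h4⟩ := hP.1 i hi
    refine List.mem_filter.2 ⟨ih i hi t ht, good_iff.2 ⟨?_, ?_, fun j y hy => ?_⟩⟩
    · rcases ht.2.eq_or_lt with e | e
      · left; rw [e, h3]
      · exact Or.inr ⟨_, h4 t ht.1 e, ih i hi _ ⟨by have := ht.1; omega, e⟩⟩
    · rcases ht.1.eq_or_lt with e | e
      · left; rw [← e, h2]
      · obtain ⟨s, rfl⟩ : ∃ s, t = s + 1 := ⟨t - 1, by omega⟩
        exact Or.inr ⟨_, h4 s (by omega) ht.2, ih i hi _ ⟨by omega, by have := ht.2; omega⟩⟩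
    · have h5 := mem_init.1 (hsub _ hy)
      exact ⟨fun hm => ⟨_, ih j h5.1 t h5.2.2.1, hmust _ _ hm t ht h5.2.2.1⟩,
        fun hm => ⟨_, ih j h5.1 t h5.2.2.1, hmust _ _ hm t h5.2.2.1 ht⟩⟩

theorem ok_iff {I : Inst} {O : List (ℕ × ℕ)} :
    ok I O = true ↔ ∀ i < I.2.2.1.length, (i, src I i) ∈ prop I O := by
  simp [ok]

theorem ok_of_sol {I : Inst} (hW : WellFormed I) {O : List (ℕ × ℕ)} {P : ℕ → ℕ → ℕ}
    (hP : Sol I O P) : ok I O = true := by
  refine ok_iff.2 fun i hi => ?_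
  obtain ⟨h1, h2, _⟩ := hP.1 i hi
  have := sound hW hP (init I).length i hi _ ⟨le_rfl, h1⟩
  rw [h2] at this
  exact this

theorem Sol.cons {I : Inst} {O : List (ℕ × ℕ)} {P : ℕ → ℕ → ℕ} (hP : Sol I O P) {e : ℕ × ℕ}
    (he : e ∈ I.2.2.2) : Sol I (e :: O) P ∨ Sol I (e.swap :: O) P := by
  rcases hP.2.1 e he with h | h
  · exact Or.inl ⟨hP.1, hP.2.1, List.forall_mem_cons.2 ⟨h, hP.2.2⟩⟩
  · exact Or.inr ⟨hP.1, hP.2.1, List.forall_mem_cons.2 ⟨h, hP.2.2⟩⟩

theorem acc_iff {I : Inst} {O : List (ℕ × ℕ)} : acc I O = true ↔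
    ok I O = true ∧ ∀ e ∈ I.2.2.2, ok I (e :: O) = true ∨ ok I (e.swap :: O) = true := by
  simp only [acc, Bool.and_eq_true, List.all_eq_true, Bool.or_eq_true]

theorem acc_of_sol {I : Inst} (hW : WellFormed I) {O : List (ℕ × ℕ)} {P : ℕ → ℕ → ℕ}
    (hP : Sol I O P) : acc I O = true :=
  acc_iff.2 ⟨ok_of_sol hW hP, fun _ he => (hP.cons he).imp (ok_of_sol hW) (ok_of_sol hW)⟩

end Pool.Agent.Lib.MP_f73e8c_lc.LP
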