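import Mathlib

/-!
Partially disjoint paths in level-planar digraphs: instances, solutions, disjointness graph.
-/

set_option autoImplicit false

namespace Pool.Agent.Lib.MP_f73e8c_lc.LP

/-- A vertex is a point `(level, position)`. -/
abbrev Vtx := ℕ × ℕ

/-- An instance `(V, E, T, F)`: vertices, arcs, terminal pairs `(r_i, s_i)` and the index pairs
`(i, j)` whose paths must be disjoint. -/
abbrev Inst := List Vtx × List (Vtx × Vtx) × List (Vtx × Vtx) × List (ℕ × ℕ)

/-- Arcs and terminals use listed vertices, and `F` consists of pairs of distinct indices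
below `k`. -/
def WellFormed (I : Inst) : Prop :=
  (∀ e ∈ I.2.1, e.1 ∈ I.1 ∧ e.2 ∈ I.1) ∧ (∀ t ∈ I.2.2.1, t.1 ∈ I.1 ∧ t.2 ∈ I.1) ∧
    ∀ f ∈ I.2.2.2, f.1 ≠ f.2 ∧ f.1 < I.2.2.1.length ∧ f.2 < I.2.2.1.length

/-- Every arc goes one level up, and two arcs between the same two levels do not cross. -/
def LevelPlanar (I : Inst) : Prop :=
  (∀ e ∈ I.2.1, e.2.1 = e.1.1 + 1) ∧
    ∀ e ∈ I.2.1, ∀ e' ∈ I.2.1, e.1.1 = e'.1.1 → e.1.2 < e'.1.2 → e.2.2 ≤ e'.2.2

/-- The disjointness graph on the indices of the terminal pairs. -/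
def conflictGraph (I : Inst) : SimpleGraph (Fin I.2.2.1.length) :=
  SimpleGraph.fromRel fun i j => ((i : ℕ), (j : ℕ)) ∈ I.2.2.2

/-- The maximum degree of the disjointness graph. -/
noncomputable def maxDeg (I : Inst) : ℕ :=
  @SimpleGraph.maxDegree _ (conflictGraph I) _ (Classical.decRel _)

/-- Pseudoforest: every edge has the form `{v, f v}` for one map `f` (the edges can be oriented
with out-degree at most one; equivalently every component has at most one cycle). -/
def Pseudoforest {α : Type} (G : SimpleGraph α) : Prop :=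
  ∃ f : α → α, ∀ i j, G.Adj i j → f i = j ∨ f j = i

/-- `p` lists the vertices of a directed path from `r` to `s` with arcs in `E`. -/
def IsDipath (E : List (Vtx × Vtx)) (r s : Vtx) (p : List Vtx) : Prop :=
  p.head? = some r ∧ p.getLast? = some s ∧ p.IsChain (fun u v => (u, v) ∈ E) ∧ p.Nodup

/-- `P` lists `k` directed paths, the `i`-th from `r_i` to `s_i`, vertex-disjoint along the edges
of the disjointness graph. -/
def IsSolution (I : Inst) (P : List (List Vtx)) : Prop :=
  P.length = I.2.2.1.length ∧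
    (∀ i : Fin I.2.2.1.length,
      IsDipath I.2.1 (I.2.2.1.get i).1 (I.2.2.1.get i).2 (P.getD i [])) ∧
    ∀ i j, (conflictGraph I).Adj i j → List.Disjoint (P.getD i []) (P.getD j [])

end Pool.Agent.Lib.MP_f73e8c_lc.LP
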