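import Pool.Agent.Lib.MP_f73e8c_lc.LP.Core

/-!
Fixed points of the filtering: leftmost and rightmost candidates, completeness on pseudoforests.
-/

set_option autoImplicit false

namespace Pool.Agent.Lib.MP_f73e8c_lc.LP

open Function

section

variable {I : Inst} {O : List (ℕ × ℕ)}

theorem prop_init {u : ℕ × Vtx} (hu : u ∈ prop I O) : u ∈ init I := (iter_sublist I O _).subset hu

theorem prop_good {u : ℕ × Vtx} (hu : u ∈ prop I O) : good I O (prop I O) u = true := by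
  rw [← prop_fixed] at hu
  exact (List.mem_filter.1 hu).2

theorem up (hL : LevelPlanar I) {i t x : ℕ} (h : (i, t, x) ∈ prop I O) (ht : t < (tgt I i).1) :
    ∃ y, ((t, x), (t + 1, y)) ∈ I.2.1 ∧ (i, t + 1, y) ∈ prop I O := by
  rcases (good_iff.1 (prop_good h)).1 with e | ⟨⟨s, y⟩, h1, h2⟩
  · rw [← e] at ht; exact absurd ht (lt_irrefl _)
  · have : s = t + 1 := hL.1 _ h1
    subst this
    exact ⟨y, h1, h2⟩

theorem down (hL : LevelPlanar I) {i t y : ℕ} (h : (i, t + 1, y) ∈ prop I O)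
    (ht : (src I i).1 ≤ t) : ∃ x, ((t, x), (t + 1, y)) ∈ I.2.1 ∧ (i, t, x) ∈ prop I O := by
  rcases (good_iff.1 (prop_good h)).2.1 with e | ⟨⟨s, x⟩, h1, h2⟩
  · rw [← e] at ht; simp at ht
  · have : t + 1 = s + 1 := hL.1 _ h1
    obtain rfl : t = s := by omega
    exact ⟨x, h1, h2⟩

theorem level_ne (hL : LevelPlanar I) (hok : ok I O = true) {i : ℕ} (hi : i < I.2.2.1.length)
    {t : ℕ} (ht : Rng I i t) : ∃ x, (i, t, x) ∈ prop I O := by
  obtain ⟨h1, h2⟩ := ht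
  induction t, h1 using Nat.le_induction with
  | base => exact ⟨_, ok_iff.1 hok i hi⟩
  | succ t h1 ih =>
    obtain ⟨x, hx⟩ := ih (by omega)
    obtain ⟨y, _, hy⟩ := up hL hx h2
    exact ⟨y, hy⟩

theorem src_le (hok : ok I O = true) {i : ℕ} (hi : i < I.2.2.1.length) :
    (src I i).1 ≤ (tgt I i).1 :=
  (mem_init.1 (prop_init (ok_iff.1 hok i hi))).2.2.1.2

theorem lo_path (hL : LevelPlanar I) (hok : ok I O = true) {i : ℕ} (hi : i < I.2.2.1.length) :
    LPath I i (lo (prop I O) i) := by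
  have hle := src_le hok hi
  refine ⟨hle, ?_, ?_, fun t h1 h2 => ?_⟩
  · exact (mem_init.1 (prop_init (lo_spec (level_ne hL hok hi ⟨le_rfl, hle⟩)).1)).2.2.2.1 rfl
  · exact (mem_init.1 (prop_init (lo_spec (level_ne hL hok hi ⟨hle, le_rfl⟩)).1)).2.2.2.2 rfl
  · have a := lo_spec (level_ne hL hok hi (t := t) ⟨h1, h2.le⟩)
    have b := lo_spec (level_ne hL hok hi (t := t + 1) ⟨by omega, h2⟩)
    obtain ⟨y, e1, hy⟩ := up hL a.1 h2
    obtain ⟨x, e2, hx⟩ := down hL b.1 h1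
    rcases (a.2 x hx).eq_or_lt with e | e
    · rw [e]; exact e2
    · have : y ≤ lo (prop I O) i (t + 1) := hL.2 _ e1 _ e2 rfl e
      rw [← le_antisymm this (b.2 y hy)]
      exact e1

theorem hi_path (hL : LevelPlanar I) (hok : ok I O = true) {i : ℕ} (h : i < I.2.2.1.length) :
    LPath I i (hi (prop I O) i) := by
  have hle := src_le hok h
  refine ⟨hle, ?_, ?_, fun t h1 h2 => ?_⟩
  · exact (mem_init.1 (prop_init (hi_spec (level_ne hL hok h ⟨le_rfl, hle⟩)).1)).2.2.2.1 rfl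
  · exact (mem_init.1 (prop_init (hi_spec (level_ne hL hok h ⟨hle, le_rfl⟩)).1)).2.2.2.2 rfl
  · have a := hi_spec (level_ne hL hok h (t := t) ⟨h1, h2.le⟩)
    have b := hi_spec (level_ne hL hok h (t := t + 1) ⟨by omega, h2⟩)
    obtain ⟨y, e1, hy⟩ := up hL a.1 h2
    obtain ⟨x, e2, hx⟩ := down hL b.1 h1
    rcases (a.2 x hx).eq_or_lt with e | e
    · rw [← e]; exact e2
    · have : hi (prop I O) i (t + 1) ≤ y := hL.2 _ e2 _ e1 rfl e
      rw [le_antisymm this (b.2 y hy)]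
      exact e1

/-- The two candidates. -/
def cand (A : Dom) (i : ℕ) (b : Bool) : ℕ → ℕ := bif b then hi A i else lo A i

theorem cand_path (hL : LevelPlanar I) (hok : ok I O = true) {i : ℕ} (h : i < I.2.2.1.length)
    (b : Bool) : LPath I i (cand (prop I O) i b) := by
  cases b
  · exact lo_path hL hok h
  · exact hi_path hL hok h

theorem must_left (hL : LevelPlanar I) (hok : ok I O = true) {i j : ℕ} (h : i < I.2.2.1.length)
    (hj : j < I.2.2.1.length) (hm : must I O (prop I O) i j = true) {b c : Bool}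
    (hbc : b = false ∨ c = true) :
    Left I i (cand (prop I O) i b) j (cand (prop I O) j c) := by
  intro t h1 h2
  have a := lo_spec (level_ne hL hok h h1)
  have a' := hi_spec (level_ne hL hok h h1)
  have d := lo_spec (level_ne hL hok hj h2)
  have d' := hi_spec (level_ne hL hok hj h2)
  obtain ⟨z, hz, e⟩ := ((good_iff.1 (prop_good d.1)).2.2 i _ a.1).2 hm
  obtain ⟨z', hz', e'⟩ := ((good_iff.1 (prop_good a'.1)).2.2 j _ d.1).1 hm
  have := a.2 z hz
  have := d'.2 z' hz'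
  have := d.2 _ d'.1
  cases b <;> cases c <;> simp only [cand, cond_true, cond_false]
  · omega
  · omega
  · simp at hbc
  · omega

theorem can_left (hL : LevelPlanar I) (hok : ok I O = true) {i j : ℕ} (h : i < I.2.2.1.length)
    (hj : j < I.2.2.1.length) (hm : can (prop I O) i j = true) :
    Left I i (cand (prop I O) i false) j (cand (prop I O) j true) := by
  intro t h1 h2
  have a := lo_spec (level_ne hL hok h h1)
  have d' := hi_spec (level_ne hL hok hj h2)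
  obtain ⟨x, y, hx, hy, e⟩ := can_iff.1 hm t _ _ a.1 d'.1
  have := a.2 x hx
  have := d'.2 y hy
  simp only [cand, cond_true, cond_false]
  omega

theorem both_left {i j : ℕ} {x y : ℕ → ℕ} (h1 : Left I i x j y) (h2 : Left I j y i x)
    (x' y' : ℕ → ℕ) : Left I i x' j y' := fun t a b =>
  absurd (h1 t a b) (not_lt.2 (h2 t b a).le)

/-- `O` orients some of the pairs of `F`. -/
def Sub (I : Inst) (O : List (ℕ × ℕ)) : Prop := ∀ e ∈ O, e ∈ I.2.2.2 ∨ e.swap ∈ I.2.2.2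

theorem sol_of_acc (hW : WellFormed I) (hL : LevelPlanar I) (hG : Pseudoforest (conflictGraph I))
    (hO : Sub I O) (h : acc I O = true) : ∃ P, Sol I O P := by
  obtain ⟨f, hf⟩ := hG
  obtain ⟨hok, hpr⟩ := acc_iff.1 h
  have hst : ∀ ρ : Fin I.2.2.1.length, ∃ O', ok I O' = true ∧ (∀ e ∈ O, e ∈ O') ∧
      ((((ρ : ℕ), (f ρ : ℕ)) ∈ I.2.2.2 ∨ ((f ρ : ℕ), (ρ : ℕ)) ∈ I.2.2.2) →
        (((ρ : ℕ), (f ρ : ℕ)) ∈ O' ∨ ((f ρ : ℕ), (ρ : ℕ)) ∈ O')) := by
    intro ρ
    by_cases h1 : ((ρ : ℕ), (f ρ : ℕ)) ∈ I.2.2.2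
    · rcases hpr _ h1 with h2 | h2
      · exact ⟨_, h2, fun e he => List.mem_cons_of_mem _ he, fun _ => Or.inl List.mem_cons_self⟩
      · exact ⟨_, h2, fun e he => List.mem_cons_of_mem _ he, fun _ => Or.inr List.mem_cons_self⟩
    · by_cases h3 : ((f ρ : ℕ), (ρ : ℕ)) ∈ I.2.2.2
      · rcases hpr _ h3 with h2 | h2
        · exact ⟨_, h2, fun e he => List.mem_cons_of_mem _ he, fun _ => Or.inr List.mem_cons_self⟩
        · exact ⟨_, h2, fun e he => List.mem_cons_of_mem _ he, fun _ => Or.inl List.mem_cons_self⟩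
      · exact ⟨O, hok, fun e he => he, fun h4 => absurd h4 (not_or.2 ⟨h1, h3⟩)⟩
  choose S hS1 hS2 hS3 using hst
  have hmO : ∀ ρ (i j : ℕ), (i, j) ∈ S ρ → must I (S ρ) (prop I (S ρ)) i j = true :=
    fun ρ i j h => must_iff.2 (Or.inl h)
  obtain ⟨P, hP⟩ := select f (fun ρ v x => ∃ b, x = cand (prop I (S ρ)) v b)
    (fun v x y => (((v : ℕ), (f v : ℕ)) ∈ I.2.2.2 ∨ ((f v : ℕ), (v : ℕ)) ∈ I.2.2.2) →
      (Left I v x (f v) y ∨ Left I (f v) y v x) ∧ (((v : ℕ), (f v : ℕ)) ∈ O → Left I v x (f v) y) ∧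
        (((f v : ℕ), (v : ℕ)) ∈ O → Left I (f v) y v x))
    (by
      intro ρ
      by_cases h1 : ((ρ : ℕ), (f ρ : ℕ)) ∈ S ρ
      · refine ⟨_, ⟨false, rfl⟩, ?_⟩
        rintro _ ⟨c, rfl⟩ _
        have h2 := fun c => must_left hL (hS1 ρ) ρ.2 (f ρ).2 (hmO ρ _ _ h1) (b := false) (c := c)
          (Or.inl rfl)
        refine ⟨Or.inl (h2 c), fun _ => h2 c, fun h3 => ?_⟩
        exact both_left (must_left hL (hS1 ρ) (f ρ).2 ρ.2 (hmO ρ _ _ (hS2 ρ _ h3)) (b := false)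
          (c := false) (Or.inl rfl)) (h2 false) _ _
      · refine ⟨_, ⟨true, rfl⟩, ?_⟩
        rintro _ ⟨c, rfl⟩ hadj
        have h2 := must_left hL (hS1 ρ) (f ρ).2 ρ.2 (hmO ρ _ _ ((hS3 ρ hadj).resolve_left h1))
          (b := c) (c := true) (Or.inr rfl)
        exact ⟨Or.inr h2, fun h3 => absurd (hS2 ρ _ h3) h1, fun _ => h2⟩)
    (by
      rintro ρ v _ ⟨c, rfl⟩
      have hc : c = false ∨ c = true := by cases c <;> simp
      by_cases h1 : must I (S ρ) (prop I (S ρ)) v (f v) = true ∨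
          must I (S ρ) (prop I (S ρ)) (f v) v = true
      · refine ⟨_, ⟨c, rfl⟩, fun _ => ⟨h1.imp (fun h => must_left hL (hS1 ρ) v.2 (f v).2 h hc)
          (fun h => must_left hL (hS1 ρ) (f v).2 v.2 h hc), fun h => ?_, fun h => ?_⟩⟩
        · exact must_left hL (hS1 ρ) v.2 (f v).2 (hmO ρ _ _ (hS2 ρ _ h)) hc
        · exact must_left hL (hS1 ρ) (f v).2 v.2 (hmO ρ _ _ (hS2 ρ _ h)) hc
      · obtain ⟨h2, h3⟩ := not_or.1 h1
        refine ⟨_, ⟨!c, rfl⟩, fun hadj => ⟨?_, fun h => absurd (hmO ρ _ _ (hS2 ρ _ h)) h2,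
          fun h => absurd (hmO ρ _ _ (hS2 ρ _ h)) h3⟩⟩
        cases c
        · right
          refine can_left hL (hS1 ρ) (f v).2 v.2 ?_
          by_contra h4
          exact h2 (must_iff.2 (Or.inr ⟨hadj, h4⟩))
        · left
          refine can_left hL (hS1 ρ) v.2 (f v).2 ?_
          by_contra h4
          exact h3 (must_iff.2 (Or.inr ⟨hadj.symm, h4⟩)))
  have key : ∀ e : ℕ × ℕ, (e ∈ I.2.2.2 ∨ e.swap ∈ I.2.2.2) →
      ∃ (h1 : e.1 < I.2.2.1.length) (h2 : e.2 < I.2.2.1.length),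
        (Left I e.1 (P ⟨e.1, h1⟩) e.2 (P ⟨e.2, h2⟩) ∨ Left I e.2 (P ⟨e.2, h2⟩) e.1 (P ⟨e.1, h1⟩)) ∧
        (e ∈ O → Left I e.1 (P ⟨e.1, h1⟩) e.2 (P ⟨e.2, h2⟩)) := by
    rintro ⟨i, j⟩ he
    have hw : i ≠ j ∧ i < I.2.2.1.length ∧ j < I.2.2.1.length := by
      rcases he with he | he
      · exact hW.2.2 _ he
      · have := hW.2.2 _ he
        exact ⟨this.1.symm, this.2.2, this.2.1⟩
    obtain ⟨hne, h1, h2⟩ := hw
    refine ⟨h1, h2, ?_⟩
    have hadj : (conflictGraph I).Adj ⟨i, h1⟩ ⟨j, h2⟩ :=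
      (SimpleGraph.fromRel_adj _ _ _).2 ⟨fun e => hne (congrArg Fin.val e), he⟩
    rcases hf _ _ hadj with e | e
    · have := (hP ⟨i, h1⟩).2
      rw [e] at this
      exact ⟨(this he).1, (this he).2.1⟩
    · have := (hP ⟨j, h2⟩).2
      rw [e] at this
      exact ⟨(this he.symm).1.symm, (this he.symm).2.2⟩
  refine ⟨fun i => if h : i < I.2.2.1.length then P ⟨i, h⟩ else fun _ => 0, fun i hi => ?_,
    fun e he => ?_, fun e he => ?_⟩
  · obtain ⟨⟨ρ, b, e⟩, _⟩ := hP ⟨i, hi⟩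
    simp only [dif_pos hi, e]
    exact cand_path hL (hS1 ρ) hi b
  · obtain ⟨h1, h2, h3, _⟩ := key e (Or.inl he)
    simpa only [dif_pos h1, dif_pos h2] using h3
  · obtain ⟨h1, h2, _, h3⟩ := key e (hO e he)
    simpa only [dif_pos h1, dif_pos h2] using h3 he

theorem orient_spec (hW : WellFormed I) (hL : LevelPlanar I) (hG : Pseudoforest (conflictGraph I))
    (h : acc I [] = true) : (∃ P, Sol I (orient I) P) ∧
      ∀ e ∈ I.2.2.2, e ∈ orient I ∨ e.swap ∈ orient I := by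
  have : ∀ (l : List (ℕ × ℕ)) (O : List (ℕ × ℕ)), (∀ e ∈ l, e ∈ I.2.2.2) → Sub I O →
      (∃ P, Sol I O P) → (∃ P, Sol I (l.foldl (gstep I) O) P) ∧
        (∀ e ∈ O, e ∈ l.foldl (gstep I) O) ∧
        ∀ e ∈ l, e ∈ l.foldl (gstep I) O ∨ e.swap ∈ l.foldl (gstep I) O := by
    intro l
    induction l with
    | nil => intro O _ _ h; exact ⟨h, fun e he => he, by simp⟩
    | cons a l ih =>
      rintro O hl hO ⟨P, hP⟩
      have ha := hl a List.mem_cons_self
      have h1 : Sub I (a :: O) := List.forall_mem_cons.2 ⟨Or.inl ha, hO⟩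
      have h2 : Sub I (a.swap :: O) := List.forall_mem_cons.2 ⟨Or.inr (by simpa using ha), hO⟩
      have h3 : Sub I (gstep I O a) ∧ (∃ P, Sol I (gstep I O a) P) ∧
          (∀ e ∈ O, e ∈ gstep I O a) ∧ (a ∈ gstep I O a ∨ a.swap ∈ gstep I O a) := by
        unfold gstep
        cases hc : acc I (a :: O)
        · refine ⟨h2, ⟨P, (hP.cons ha).resolve_left fun h4 => ?_⟩,
            fun e he => List.mem_cons_of_mem _ he, Or.inr List.mem_cons_self⟩
          rw [acc_of_sol hW h4] at hc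
          exact absurd hc (by simp)
        · exact ⟨h1, sol_of_acc hW hL hG h1 hc, fun e he => List.mem_cons_of_mem _ he,
            Or.inl List.mem_cons_self⟩
      obtain ⟨h4, h5, h6⟩ := ih (gstep I O a) (fun e he => hl e (List.mem_cons_of_mem _ he))
        h3.1 h3.2.1
      refine ⟨h4, fun e he => h5 e (h3.2.2.1 e he), fun e he => ?_⟩
      rcases List.mem_cons.1 he with rfl | he
      · exact h3.2.2.2.imp (h5 _) (h5 _)
      · exact h6 e he
  have h0 : Sub I [] := fun e he => absurd he (by simp)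
  obtain ⟨h1, _, h2⟩ := this I.2.2.2 [] (fun e he => he) h0 (sol_of_acc hW hL hG h0 h)
  exact ⟨h1, h2⟩

theorem lo_sol (hW : WellFormed I) (hL : LevelPlanar I) (hG : Pseudoforest (conflictGraph I))
    (h : acc I [] = true) : Sol I [] (lo (prop I (orient I))) := by
  obtain ⟨⟨P, hP⟩, h2⟩ := orient_spec hW hL hG h
  have hok := ok_of_sol hW hP
  refine ⟨fun i hi => lo_path hL hok hi, fun e he => ?_, by simp⟩
  obtain ⟨_, a, b⟩ := hW.2.2 e he
  rcases h2 e he with h3 | h3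
  · exact Or.inl (must_left hL hok a b (must_iff.2 (Or.inl h3)) (b := false) (c := false)
      (Or.inl rfl))
  · exact Or.inr (must_left hL hok b a (must_iff.2 (Or.inl h3)) (b := false) (c := false)
      (Or.inl rfl))

end

end Pool.Agent.Lib.MP_f73e8c_lc.LP
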